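import Mathlib

set_option autoImplicit false

namespace Pool.Agent.H.MP_8dda54_gt

open Set Metric Filter Topology

variable {V : Type} [NormedAddCommGroup V] [NormedSpace ℝ V]

/-- polygonal paths made of segments in `Y` and of links -/
inductive Good (Y : Set V) (L : V → V → Prop) : (a b : V) → Path a b → Prop
  | one {a b : V} : segment ℝ a b ⊆ Y ∨ L a b ∨ L b a → Good Y L a b (Path.segment a b)
  | trans {a b c : V} {p : Path a b} {q : Path b c} :
      Good Y L a b p → Good Y L b c q → Good Y L a c (p.trans q)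

/-- one refinement step inside a ball -/
def Step (Y : Set V) (L : V → V → Prop) (T : Set V) (x y : V) : Prop :=
  x ∈ T ∧ y ∈ T ∧ (segment ℝ x y ⊆ Y ∨ L x y ∨ L y x)

theorem Step.symm {Y T : Set V} {L : V → V → Prop} {x y : V}
    (h : Relation.ReflTransGen (Step Y L T) x y) : Relation.ReflTransGen (Step Y L T) y x := by
  induction h with
  | refl => exact .refl
  | tail _ h ih => exact .head ⟨h.2.1, h.1, h.2.2.imp (fun h => by rwa [segment_symm]) Or.symm⟩ ih

theorem chain [CompleteSpace V] {Y : Set V} (hY : IsClosed Y) {L : ℕ → V → V → Prop} {C : ℝ}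
    (hL : ∀ k a b, L k a b → a ∈ Y ∧ b ∈ Y ∧ ∃ c, a ∈ closedBall c (C * (1 / 2) ^ k) ∧
      b ∈ closedBall c (C * (1 / 2) ^ k) ∧
      Relation.ReflTransGen (Step Y (L (k + 1)) (closedBall c (C * (1 / 2) ^ k))) a b)
    (hC : 0 ≤ C) {a b : V} (h : L 0 a b) : JoinedIn Y a b := by
  have sg : ∀ (a b : V) (t : unitInterval), Path.segment a b t ∈ segment ℝ a b :=
    fun a b t => Path.range_segment a b ▸ mem_range_self t
  have db : ∀ {c x y : V} {k : ℕ}, x ∈ closedBall c (C * (1 / 2) ^ k) →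
      y ∈ closedBall c (C * (1 / 2) ^ k) → dist x y ≤ 2 * C * (1 / 2) ^ k := fun hx hy => by
    linarith [dist_triangle_right _ _ _ |>.trans (add_le_add hx hy)]
  have R : ∀ k a b p, Good Y (L k) a b p → (∃ q, Good Y (L (k + 1)) a b q ∧
      ∀ t, dist (p t) (q t) ≤ 2 * C * (1 / 2) ^ k) ∧
      ∀ t, ∃ y ∈ Y, dist (p t) y ≤ 2 * C * (1 / 2) ^ k := by
    intro k a b p hp
    induction hp with
    | @one a b h =>
      rcases h with h | h
      · exact ⟨⟨_, .one (.inl h), fun t => by rw [dist_self]; positivity⟩,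
          fun t => ⟨_, h (sg a b t), by rw [dist_self]; positivity⟩⟩
      obtain ⟨ha, c, h1, h2, h3⟩ : a ∈ Y ∧ ∃ c, a ∈ closedBall c (C * (1 / 2) ^ k) ∧
          b ∈ closedBall c (C * (1 / 2) ^ k) ∧
          Relation.ReflTransGen (Step Y (L (k + 1)) (closedBall c (C * (1 / 2) ^ k))) a b :=
        h.elim (fun h => ⟨(hL k a b h).1, (hL k a b h).2.2⟩) fun h =>
          let ⟨_, h0, c, h1, h2, h3⟩ := hL k b a h; ⟨h0, c, h2, h1, Step.symm h3⟩
      have s := fun t => (convex_closedBall c _).segment_subset h1 h2 (sg a b t)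
      obtain ⟨q, q1, q2⟩ : ∃ q, Good Y (L (k + 1)) a b q ∧ range q ⊆ closedBall c (C * (1 / 2) ^ k) := by
        clear s h2 h
        induction h3 with
        | refl => exact ⟨_, .one (.inl (by simpa using ha)), by simpa using h1⟩
        | tail _ h ih =>
          obtain ⟨q, q1, q2⟩ := ih
          refine ⟨_, .trans q1 (.one h.2.2), ?_⟩
          rw [Path.trans_range, Path.range_segment]
          exact union_subset q2 ((convex_closedBall c _).segment_subset h.1 h.2.1)
      exact ⟨⟨q, q1, fun t => db (s t) (q2 (mem_range_self t))⟩, fun t => ⟨a, ha, db (s t) h1⟩⟩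
    | trans _ _ i j =>
      obtain ⟨⟨q, q1, q2⟩, i⟩ := i
      obtain ⟨⟨r, r1, r2⟩, j⟩ := j
      refine ⟨⟨_, .trans q1 r1, fun t => ?_⟩, fun t => ?_⟩ <;> simp only [Path.trans_apply] <;>
        split_ifs
      exacts [q2 _, r2 _, i _, j _]
  choose f f1 f2 using fun k (p : {p // Good Y (L k) a b p}) => (R k a b p.1 p.2).1
  let s : ∀ k, {p // Good Y (L k) a b p} := fun k =>
    Nat.rec ⟨_, .one (.inr (.inl h))⟩ (fun k p => ⟨f k p, f1 k p⟩) k
  obtain ⟨g, hg⟩ := cauchySeq_tendsto_of_complete (cauchySeq_of_le_geometric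
    (f := fun k => (s k).1.toContinuousMap) (1 / 2) (2 * C) (by norm_num) fun k =>
      (ContinuousMap.dist_le (by positivity)).2 (f2 k (s k)))
  have e := fun t => ((continuous_eval_const t).tendsto g).comp hg
  refine ⟨⟨g, tendsto_nhds_unique (e 0) (tendsto_const_nhds.congr fun k => (s k).1.source.symm),
    tendsto_nhds_unique (e 1) (tendsto_const_nhds.congr fun k => (s k).1.target.symm)⟩, fun t => ?_⟩
  choose y y1 y2 using fun k => (R k a b _ (s k).2).2 t
  refine hY.mem_of_tendsto ((e t).congr_dist (squeeze_zero (fun _ => dist_nonneg) y2 ?_))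
    (.of_forall y1)
  simpa using (tendsto_pow_atTop_nhds_zero_of_lt_one (r := (1 / 2 : ℝ)) (by norm_num)
    (by norm_num)).const_mul (2 * C)

end Pool.Agent.H.MP_8dda54_gt
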