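import Pool.Agent.H.MP_8dda54_gt.A

set_option autoImplicit false

namespace Pool.Agent.H.MP_8dda54_gt

open Set Metric Filter Topology

variable {E : Type} [NormedAddCommGroup E] [InnerProductSpace ℝ E] {K : Set E}

/-- chords whose projection to the direction `u` has length at least one -/
def Hs (K : Set E) (u : E) : Set (E × E) := {y | y ∈ K ×ˢ K ∧ ‖u‖ ≤ inner ℝ u (y.2 - y.1)}

/-- chords of length at least one -/
def Ys (K : Set E) : Set (E × E) := {y | y ∈ K ×ˢ K ∧ 1 ≤ ‖y.2 - y.1‖}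

/-- directions seen by a long chord -/
def Q (K : Set E) (s : ℝ) : Set E := {u | ∃ y ∈ Hs K u, 1 + s ^ 2 ≤ ‖y.2 - y.1‖ ^ 2}

/-- thin links -/
def Th (K : Set E) (s : ℝ) (a b : E × E) : Prop := ∃ (R : Set E) (c : E × E), IsOpen R ∧
  IsPreconnected R ∧ 0 ∉ R ∧ (∀ u ∈ R, Hs K u ⊆ closedBall c (4 * s)) ∧ (∃ u ∈ R, a ∈ Hs K u) ∧
  b ∈ closedBall c (4 * s) ∧ ∃ w v, w ≠ 0 ∧ b ∈ Hs K w ∧ v ≠ w ∧ ball v (dist w v) ⊆ R

theorem HY {u : E} (hu : u ≠ 0) : Hs K u ⊆ Ys K := fun y hy => ⟨hy.1, le_of_mul_le_mul_left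
  (by simpa using hy.2.trans (real_inner_le_norm _ _)) (norm_pos_iff.2 hu)⟩

theorem Hcvx (hK : Convex ℝ K) (u : E) : Convex ℝ (Hs K u) := fun x hx y hy a b ha hb hab =>
  ⟨hK.prod hK hx.1 hy.1 ha hb hab, by
    rw [show (a • x + b • y).2 - (a • x + b • y).1 = a • (x.2 - x.1) + b • (y.2 - y.1) by
      simp [smul_sub]; abel, inner_add_right, real_inner_smul_right, real_inner_smul_right,
      ← one_mul ‖u‖, ← hab, add_mul]
    gcongr
    exacts [hx.2, hy.2]⟩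

theorem ray {s : ℝ} {w v : E} (hw : w ≠ 0) (hQ : ∀ u ∈ ball v (dist w v), u ∉ Q K s) {z : E × E}
    (hz : z ∈ Hs K w) (hs : 1 + s ^ 2 ≤ ‖z.2 - z.1‖ ^ 2) (x : E) (hx : 0 < inner ℝ x (v - w)) :
    inner ℝ x (z.2 - z.1 - ‖w‖⁻¹ • w) ≤ 0 := by
  have w0 := norm_pos_iff.2 hw
  rw [inner_sub_right, real_inner_smul_right, sub_nonpos, le_inv_mul_iff₀ w0]
  refine not_lt.1 fun h => ?_
  have c : ∀ a b : ℝ, 0 < b → ∀ᶠ t in 𝓝[>] (0 : ℝ), t * a < b := fun a b hb =>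
    (ContinuousAt.eventually_lt (f := fun t : ℝ => t * a) (by fun_prop) continuousAt_const
      (by simpa using hb)).filter_mono nhdsWithin_le_nhds
  obtain ⟨t, ⟨⟨t1, t2⟩, t3⟩, t0⟩ := ((((c (‖x‖ ^ 2) _ hx).and (c (‖x‖ ^ 2) _ (sub_pos.2 h))).and
    (c (-inner ℝ x (z.2 - z.1)) _ w0)).and self_mem_nhdsWithin).exists
  replace t0 : 0 < t := t0
  refine hQ (w + t • x) ?_ ⟨z, ⟨hz.1, ?_⟩, hs⟩
  · rw [mem_ball, dist_comm, dist_comm w, dist_eq_norm, dist_eq_norm, ← sub_sub,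
      ← sq_lt_sq₀ (norm_nonneg _) (norm_nonneg _), norm_sub_sq_real (v - w), real_inner_smul_right,
      norm_smul, real_inner_comm, mul_pow, Real.norm_eq_abs, sq_abs]
    nlinarith
  · rw [inner_add_left, real_inner_smul_left]
    refine le_trans (b := ‖w‖ + t * inner ℝ x (z.2 - z.1)) ?_ (by linarith [hz.2])
    rw [← sq_le_sq₀ (norm_nonneg _) (by linarith), norm_add_sq_real, real_inner_smul_right,
      norm_smul, real_inner_comm, mul_pow, Real.norm_eq_abs, sq_abs]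
    nlinarith [sq_nonneg (t * inner ℝ x (z.2 - z.1))]

theorem diam3 {s : ℝ} (s0 : 0 < s) {w v : E} (hw : w ≠ 0) (hv : v ≠ w)
    (hQ : ∀ u ∈ ball v (dist w v), u ∉ Q K s) (hm : ∀ y ∈ K ×ˢ K, inner ℝ w (y.2 - y.1) ≤ ‖w‖)
    {y z : E × E} (hy : y ∈ Hs K w) (hz : z ∈ Hs K w) (y1 : ‖y.2 - y.1‖ ^ 2 ≤ 1 + s ^ 2)
    (z1 : ‖z.2 - z.1‖ ^ 2 ≤ 1 + s ^ 2) : dist y z ≤ 3 * s := by
  have w0 := norm_pos_iff.2 hw
  have n : ∀ y ∈ Hs K w, ‖y.2 - y.1 - ‖w‖⁻¹ • w‖ ^ 2 = ‖y.2 - y.1‖ ^ 2 - 1 := fun y hy => by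
    rw [norm_sub_sq_real, real_inner_smul_right, real_inner_comm, (hm y hy.1).antisymm hy.2, norm_smul,
      norm_inv, norm_norm, inv_mul_cancel₀ w0.ne']
    ring
  have m2 := hm (z.1, y.2) ⟨hz.1.1, hy.1.2⟩
  have m3 := hm (y.1, z.2) ⟨hy.1.1, hz.1.2⟩
  have h1 := hy.2
  have h4 := hz.2
  simp only [inner_sub_right] at m2 m3 h1 h4
  have h2 : (z.1, y.2) ∈ Hs K w := ⟨⟨hz.1.1, hy.1.2⟩, by rw [inner_sub_right]; linarith⟩
  have h3 : (y.1, z.2) ∈ Hs K w := ⟨⟨hy.1.1, hz.1.2⟩, by rw [inner_sub_right]; linarith⟩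
  have n1 : ‖y.2 - y.1 - ‖w‖⁻¹ • w‖ ≤ s := by nlinarith [n y hy, norm_nonneg (y.2 - y.1 - ‖w‖⁻¹ • w)]
  have n4 : ‖z.2 - z.1 - ‖w‖⁻¹ • w‖ ≤ s := by nlinarith [n z hz, norm_nonneg (z.2 - z.1 - ‖w‖⁻¹ • w)]
  have n2 := n _ h2
  have n3 := n _ h3
  have r2 := ray hw hQ h2
  have r3 := ray hw hQ h3
  dsimp only at n2 n3 r2 r3
  have e : y.2 - z.1 - ‖w‖⁻¹ • w + (z.2 - y.1 - ‖w‖⁻¹ • w) =
      y.2 - y.1 - ‖w‖⁻¹ • w + (z.2 - z.1 - ‖w‖⁻¹ • w) := by abel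
  have a1 : dist y.1 z.1 = ‖y.2 - z.1 - ‖w‖⁻¹ • w - (y.2 - y.1 - ‖w‖⁻¹ • w)‖ := by
    rw [dist_eq_norm]; congr 1; abel
  have a2 : dist y.2 z.2 = ‖y.2 - z.1 - ‖w‖⁻¹ • w - (z.2 - z.1 - ‖w‖⁻¹ • w)‖ := by
    rw [dist_eq_norm]; congr 1; abel
  have a3 : dist y.1 z.1 = ‖z.2 - z.1 - ‖w‖⁻¹ • w - (z.2 - y.1 - ‖w‖⁻¹ • w)‖ := by
    rw [dist_eq_norm]; congr 1; abel
  have a4 : dist y.2 z.2 = ‖y.2 - y.1 - ‖w‖⁻¹ • w - (z.2 - y.1 - ‖w‖⁻¹ • w)‖ := by
    rw [dist_eq_norm]; congr 1; abel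
  generalize y.2 - z.1 - ‖w‖⁻¹ • w = p at *
  generalize z.2 - y.1 - ‖w‖⁻¹ • w = q at *
  generalize y.2 - y.1 - ‖w‖⁻¹ • w = p' at *
  generalize z.2 - z.1 - ‖w‖⁻¹ • w = q' at *
  have : ‖p‖ ≤ 2 * s ∨ ‖q‖ ≤ 2 * s := by
    by_contra! h
    replace r2 := r2 (by nlinarith [h.1])
    replace r3 := r3 (by nlinarith [h.2])
    have v0 : 0 < inner ℝ (v - w) (v - w) := real_inner_self_pos.2 (sub_ne_zero.2 hv)
    have : 0 ≤ inner ℝ q p := by
      have c : ContinuousWithinAt (fun t : ℝ => t * inner ℝ (v - w) p) (Ioi 0) 0 := by fun_prop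
      refine le_trans (by simp) (le_of_tendsto c (eventually_mem_nhdsWithin.mono fun t ht => ?_))
      have := r2 (t • (v - w) - q) (by
        rw [inner_sub_left, real_inner_smul_left, real_inner_comm _ q]
        linarith [r3 _ v0, mul_pos ht v0])
      rwa [inner_sub_left, real_inner_smul_left, sub_nonpos] at this
    have b := norm_add_sq_real p q
    have c := norm_add_le p' q'
    rw [e, real_inner_comm] at b
    nlinarith [h.1, h.2, norm_nonneg (p' + q')]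
  rw [Prod.dist_eq, max_le_iff]
  rcases this with h | h
  · exact ⟨by linarith [norm_sub_le p p'], by linarith [norm_sub_le p q']⟩
  · exact ⟨by linarith [norm_sub_le q' q], by linarith [norm_sub_le p' q]⟩

theorem usc {F : Set (E × E)} (hF : IsCompact F) {w : E} {P : E × E → Prop}
    (h : ∀ y ∈ F, y ∈ Hs K w → ∀ᶠ z in 𝓝 y, P z) (hc : IsClosed K) :
    ∀ᶠ u in 𝓝 w, ∀ y ∈ F, y ∈ Hs K u → P y := by
  refine hF.eventually_forall_of_forall_eventually fun y hy => ?_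
  by_cases p : y ∈ Hs K w
  · exact ((continuous_snd.tendsto (w, y)).eventually (h y hy p)).mono fun _ h _ => h
  · have : IsClosed {z : E × E × E | z.2 ∈ Hs K z.1} :=
      ((hc.prod hc).preimage continuous_snd).inter (isClosed_le (f := fun z : E × E × E => ‖z.1‖)
        (g := fun z => inner ℝ z.1 (z.2.2 - z.2.1)) (by fun_prop) (by fun_prop))
    exact Eventually.mono (this.isOpen_compl.mem_nhds p) fun _ h h' => absurd h' h

theorem refine_th [ProperSpace E] (hK : IsCompact K) (cK : Convex ℝ K) (ne : ∀ u, (Hs K u).Nonempty)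
    {s : ℝ} (s0 : 0 < s) {a b : E × E} (h : Th K (2 * s) a b) :
    a ∈ Ys K ∧ b ∈ Ys K ∧ ∃ c, a ∈ closedBall c (4 * (2 * s)) ∧ b ∈ closedBall c (4 * (2 * s)) ∧
      Relation.ReflTransGen (Step (Ys K) (Th K s) (closedBall c (4 * (2 * s)))) a b := by
  obtain ⟨R, c, Ro, Rc, R0, RT, ⟨u0, hu0, ha⟩, hb, w0, v0, hw0, hb', hv0, hB0⟩ := h
  have nz : ∀ u ∈ R, u ≠ 0 := fun u hu h => R0 (h ▸ hu)
  refine ⟨HY (nz _ hu0) ha, HY hw0 hb', c, RT _ hu0 ha, hb, ?_⟩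
  set T := closedBall c (4 * (2 * s))
  set r := Relation.ReflTransGen (Step (Ys K) (Th K s) T)
  have sol : ∀ {u x y}, u ≠ 0 → x ∈ Hs K u → y ∈ Hs K u → x ∈ T → y ∈ T → r x y :=
    fun hu hx hy x1 y1 => .single ⟨x1, y1, .inl (((Hcvx cK _).segment_subset hx hy).trans (HY hu))⟩
  have KT : IsCompact (K ×ˢ K ∩ T) := (hK.prod hK).inter_right isClosed_closedBall
  have C1 : ∀ w ≠ 0, ∀ b ∈ Hs K w, b ∈ T → ∀ᶠ u in 𝓝 w, u ∈ R → u ∈ Q K s → ∃ y ∈ Hs K u, r y b := by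
    intro w hw b hb hb'
    refine (usc (KT.inter_right (isClosed_le (f := fun _ => 1 + s ^ 2)
      (g := fun y => ‖y.2 - y.1‖ ^ 2) (by fun_prop) (by fun_prop)))
      (P := fun y => y ∈ K ×ˢ K ∩ T → r y b) (w := w) (fun y hy hy' => ?_) hK.isClosed).mono
      fun u h hu ⟨y, y1, y2⟩ => ⟨y, y1, h y ⟨⟨y1.1, RT u hu y1⟩, y2⟩ y1 ⟨y1.1, RT u hu y1⟩⟩
    have l : ‖y.2 - y.1‖ < inner ℝ (y.2 - y.1) (y.2 - y.1) := by
      have : 1 + s ^ 2 ≤ ‖y.2 - y.1‖ ^ 2 := hy.2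
      rw [real_inner_self_eq_norm_sq]
      nlinarith [norm_nonneg (y.2 - y.1), (HY hw hy').2]
    refine (ContinuousAt.eventually_lt (g := fun z : E × E => inner ℝ (y.2 - y.1) (z.2 - z.1))
      continuousAt_const (by fun_prop) l).mono fun z h hz => ?_
    exact (sol (fun h => by simp [h] at l) ⟨hz.1, h.le⟩ ⟨hy.1.1, l.le⟩ hz.2 hy.1.2).trans
      (sol hw hy' hb hy.1.2 hb')
  have C2 : ∀ w ≠ 0, ∀ b ∈ Hs K w, b ∈ T → ∃ η > 0, ∀ v ≠ w,
      ball v (dist w v) ⊆ (ball w η ∩ R) \ Q K s → ∀ u ∈ ball v (dist w v), ∃ y ∈ Hs K u, r y b := by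
    intro w hw b hb hb'
    by_cases! hm : ∀ y ∈ K ×ˢ K, inner ℝ w (y.2 - y.1) ≤ ‖w‖
    · obtain ⟨η, η0, h⟩ := Metric.eventually_nhds_iff_ball.1 (usc (KT.inter_right (isClosed_le
        (g := fun _ => 1 + s ^ 2) (f := fun y => ‖y.2 - y.1‖ ^ 2) (by fun_prop) (by fun_prop)))
        (P := fun y => ∃ z ∈ Hs K w, z ∈ T ∧ ‖z.2 - z.1‖ ^ 2 ≤ 1 + s ^ 2 ∧ dist y z < s) (w := w)
        (fun y hy hy' => Eventually.mono (ball_mem_nhds y s0) fun z h => ⟨y, hy', hy.1.2, hy.2, h⟩)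
        hK.isClosed)
      refine ⟨η, η0, fun v hv hB u hu => ?_⟩
      replace h := fun u (hu : u ∈ ball v (dist w v)) y (hy : y ∈ Hs K u) => h u (hB hu).1.1 y
        ⟨⟨hy.1, RT u (hB hu).1.2 hy⟩, (not_le.1 fun p => (hB hu).2 ⟨y, hy, p⟩).le⟩ hy
      obtain ⟨y, hy⟩ := ne u
      obtain ⟨z, z1, z2, z3, -⟩ := h u hu y hy
      refine ⟨y, hy, .head ⟨RT u (hB hu).1.2 hy, z2, .inr (.inl ⟨_, z, isOpen_ball,
        (convex_ball _ _).isPreconnected, fun p => R0 (hB p).1.2, fun u' hu' y' hy' => ?_, ⟨u, hu, hy⟩,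
        mem_closedBall_self (by positivity), w, v, hw, z1, hv, subset_rfl⟩)⟩ (sol hw z1 hb z2 hb')⟩
      obtain ⟨z', a1, -, a3, a4⟩ := h u' hu' y' hy'
      exact mem_closedBall.2 (by
        linarith [diam3 s0 hw hv (fun u hu => (hB hu).2) hm a1 z1 a3 z3, dist_triangle y' z' z])
    · obtain ⟨y, hy, l⟩ := hm
      obtain ⟨η, η0, h⟩ := Metric.eventually_nhds_iff_ball.1 (ContinuousAt.eventually_lt
        (f := fun u : E => ‖u‖) (g := fun u => inner ℝ u (y.2 - y.1)) (by fun_prop) (by fun_prop) l)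
      refine ⟨η, η0, fun v _ hB u hu => ?_⟩
      have : y ∈ Hs K u := ⟨hy, (h u (hB hu).1.1).le⟩
      exact ⟨y, this, sol hw ⟨hy, l.le⟩ hb (RT u (hB hu).1.2 this) hb'⟩
  have B : ∀ w ≠ 0, ∀ b ∈ Hs K w, b ∈ T → ∀ v ≠ w, ball v (dist w v) ⊆ R →
      ∃ u ∈ ball v (dist w v), ∃ y ∈ Hs K u, r y b := by
    intro w hw b hb hb' v hv hB
    obtain ⟨η, η0, h1⟩ := Metric.eventually_nhds_iff_ball.1 (C1 w hw b hb hb')
    obtain ⟨θ, θ0, h2⟩ := C2 w hw b hb hb'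
    have d0 := dist_pos.2 hv.symm
    obtain ⟨t, t0, t1, t2⟩ : ∃ t : ℝ, 0 < t ∧ t ≤ 1 ∧ 2 * (t * dist w v) ≤ min η θ :=
      ⟨min 1 (min η θ / (2 * dist w v)), by positivity, min_le_left _ _, by
        rw [mul_left_comm, ← le_div_iff₀ (by positivity)]; exact min_le_right _ _⟩
    have e1 : dist w (AffineMap.lineMap w v t) = t * dist w v := by
      rw [dist_left_lineMap, Real.norm_of_nonneg t0.le]
    have s1 : ball (AffineMap.lineMap w v t) (dist w (AffineMap.lineMap w v t)) ⊆ ball v (dist w v) :=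
      ball_subset_ball' (by rw [e1, dist_lineMap_right, Real.norm_of_nonneg (by linarith)]; linarith)
    have s2 : ball (AffineMap.lineMap w v t) (dist w (AffineMap.lineMap w v t)) ⊆ ball w (min η θ) :=
      ball_subset_ball' (by rw [dist_comm _ w, e1]; linarith)
    by_cases! p : ∃ u ∈ ball (AffineMap.lineMap w v t) (dist w (AffineMap.lineMap w v t)), u ∈ Q K s
    · obtain ⟨u, hu, p⟩ := p
      exact ⟨u, s1 hu, h1 u (ball_subset_ball (min_le_left _ _) (s2 hu)) (hB (s1 hu)) p⟩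
    · have := mem_ball_self (x := AffineMap.lineMap w v t) (e1 ▸ mul_pos t0 d0)
      exact ⟨_, s1 this, h2 _ (dist_pos.1 (e1 ▸ mul_pos t0 d0)).symm (fun u hu =>
        ⟨⟨ball_subset_ball (min_le_right _ _) (s2 hu), hB (s1 hu)⟩, p u hu⟩) _ this⟩
  let P : E → E → Prop := fun u v => ∀ x ∈ Hs K u, ∀ y ∈ Hs K v, r x y
  have P0 : ∀ {u v y z}, u ∈ R → v ∈ R → z ∈ Hs K u → y ∈ Hs K v → r y z → P u v :=
    fun hu hv hz hy h x hx x' hx' => (sol (nz _ hu) hx hz (RT _ hu hx) (RT _ hu hz)).trans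
      ((Step.symm h).trans (sol (nz _ hv) hy hx' (RT _ hv hy) (RT _ hv hx')))
  have con : ∀ S ⊆ R, IsPreconnected S → (∀ w ∈ S, ∀ᶠ u in 𝓝 w, P w u) → ∀ u ∈ S, ∀ v ∈ S, P u v :=
    fun S _ hS h u hu v hv => hS.induction₂ P (fun w hw => (h w hw).filter_mono nhdsWithin_le_nhds)
      (fun _ y _ _ _ _ p q a ha c hc => let ⟨b, hb⟩ := ne y; (p a ha b hb).trans (q b hb c hc))
      (fun _ _ _ _ p a ha b hb => Step.symm (p b hb a ha)) hu hv
  have Qc : IsClosed (Q K s) := isOpen_compl_iff.1 (isOpen_iff_eventually.2 fun w hw =>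
    (usc (hK.prod hK) (P := fun y => ‖y.2 - y.1‖ ^ 2 < 1 + s ^ 2) (fun y _ hy =>
      ContinuousAt.eventually_lt (by fun_prop) continuousAt_const (not_le.1 fun p => hw ⟨y, hy, p⟩))
      hK.isClosed).mono fun u h ⟨y, y1, y2⟩ => (h y y1.1 y1).not_ge y2)
  have I1 : ∀ w ∈ R, w ∉ Q K s → ∀ᶠ u in 𝓝 w, P w u := fun w hw hq => by
    obtain ⟨b, hb⟩ := ne w
    obtain ⟨η, η0, h⟩ := C2 w (nz w hw) b hb (RT w hw hb)
    obtain ⟨θ, θ0, p⟩ := Metric.mem_nhds_iff.1 (((isOpen_ball.inter Ro).sdiff Qc).mem_nhds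
      ⟨⟨mem_ball_self η0, hw⟩, hq⟩)
    filter_upwards [ball_mem_nhds w (half_pos θ0)] with u hu
    rcases eq_or_ne u w with rfl | hn
    · exact P0 hw hw hb hb .refl
    have s1 : ball u (dist w u) ⊆ ball w θ :=
      ball_subset_ball' (by rw [dist_comm w]; linarith [mem_ball.1 hu])
    have m := mem_ball_self (x := u) (dist_pos.2 hn.symm)
    obtain ⟨y, y1, y2⟩ := h u hn (s1.trans p) u m
    exact P0 hw (p (s1 m)).1.2 hb y1 y2
  have I2 : ∀ w ∈ R, ∀ᶠ u in 𝓝 w, P w u := fun w hw => by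
    obtain ⟨b, hb⟩ := ne w
    obtain ⟨η, η0, h⟩ := Metric.eventually_nhds_iff_ball.1
      ((C1 w (nz w hw) b hb (RT w hw hb)).and (Ro.mem_nhds hw))
    have q : ∀ u ∈ ball w η, u ∈ insert w (Q K s) → P w u := by
      rintro u hu (rfl | p)
      · exact P0 hw hw hb hb .refl
      · obtain ⟨y, y1, y2⟩ := (h u hu).1 (h u hu).2 p
        exact P0 hw (h u hu).2 hb y1 y2
    filter_upwards [ball_mem_nhds w (half_pos η0)] with u hu
    obtain ⟨x, x1, x2⟩ := (isClosed_singleton.union Qc).exists_infDist_eq_dist ⟨w, .inl rfl⟩ u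
    have le : ∀ z ∈ insert w (Q K s), dist x u ≤ dist u z := fun z hz => by
      rw [dist_comm, ← x2]; exact infDist_le_dist_of_mem hz
    have l := (le w (.inl rfl)).trans_lt hu
    have xb : x ∈ ball w η := mem_ball.2 (by linarith [dist_triangle x u w, mem_ball.1 hu])
    rcases eq_or_ne u x with rfl | hn
    · exact q u xb x1
    have s1 : ball u (dist x u) ⊆ R := fun z hz =>
      (h z (ball_subset_ball' (by linarith [mem_ball.1 hu]) hz)).2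
    obtain ⟨b', hb'⟩ := ne x
    obtain ⟨z, z1, y, y1, y2⟩ := B x (nz x (h x xb).2) b' hb' (RT x (h x xb).2 hb') u hn s1
    exact fun a ha c hc => (q x xb x1 a ha b' hb').trans ((Step.symm y2).trans (con _ s1
      (convex_ball _ _).isPreconnected (fun z hz => I1 z (s1 hz) fun p =>
        (le z (.inr p)).not_gt (mem_ball'.1 hz)) z z1 u (mem_ball_self (dist_pos.2 hn.symm)) y y1 c hc))
  obtain ⟨u, hu, y, y1, y2⟩ := B w0 hw0 b hb' hb v0 hv0 hB0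
  exact (con R subset_rfl Rc I2 u0 hu0 u (hB0 hu) a ha y y1).trans y2

theorem joined [ProperSpace E] (hK : IsCompact K) (cK : Convex ℝ K) (ne : ∀ u, (Hs K u).Nonempty)
    (hE : IsPreconnected ({0}ᶜ : Set E)) {a b : E × E} (ha : a ∈ Ys K) (hb : b ∈ Ys K) :
    JoinedIn (Ys K) a b := by
  obtain ⟨C, C0, hC⟩ := (hK.prod hK).isBounded.subset_closedBall_lt 0 0
  have m : ∀ y ∈ Ys K, y.2 - y.1 ≠ 0 ∧ y ∈ Hs K (y.2 - y.1) := fun y hy =>
    ⟨norm_pos_iff.1 (by linarith [hy.2]), hy.1, by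
      rw [real_inner_self_eq_norm_sq]; nlinarith [hy.2]⟩
  refine chain (L := fun k => Th K (C * (1 / 2) ^ k)) (C := 4 * C)
    ((hK.isClosed.prod hK.isClosed).inter (isClosed_le (f := fun _ => 1)
      (g := fun y : E × E => ‖y.2 - y.1‖) (by fun_prop) (by fun_prop)))
    (fun k a b h => ?_) (by positivity) ⟨{0}ᶜ, 0, isOpen_compl_singleton, hE, by simp,
      fun u _ y hy => closedBall_subset_closedBall (by linarith) (hC hy.1), ⟨_, (m a ha).1, (m a ha).2⟩,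
      closedBall_subset_closedBall (by linarith) (hC hb.1), _, (2 : ℝ) • (b.2 - b.1), (m b hb).1,
      (m b hb).2, fun h => (m b hb).1 (by simpa [two_smul] using h), fun u hu h => ?_⟩
  · have e : C * (1 / 2) ^ k = 2 * (C * (1 / 2) ^ (k + 1)) := by ring
    rw [mul_assoc, e]
    exact refine_th hK cK ne (by positivity) (e ▸ h)
  · rw [mem_singleton_iff.1 h, mem_ball, dist_zero_left, norm_smul, two_smul ℝ (b.2 - b.1),
      dist_self_add_right, Real.norm_two] at hu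
    linarith [hb.2]

end Pool.Agent.H.MP_8dda54_gt
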