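import Pool.Agent.H.MP_8dda54_gt.B

set_option autoImplicit false

namespace Pool.Agent.H.MP_8dda54_gt

open Set Metric Filter Topology Matrix

/-- three dimensional space -/
abbrev E3 := EuclideanSpace ℝ (Fin 3)

/-- rotations -/
abbrev SO := specialOrthogonalGroup (Fin 3) ℝ

/-- first basis vector -/
noncomputable def e0 : E3 := EuclideanSpace.single 0 1

/-- reflection matrix -/
noncomputable def Hh (w : E3) : Matrix (Fin 3) (Fin 3) ℝ := 1 - (2 / ‖w‖ ^ 2) • vecMulVec w w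

/-- rotation about the first axis -/
noncomputable def rot (t : ℝ) : Matrix (Fin 3) (Fin 3) ℝ :=
  !![1, 0, 0; 0, Real.cos t, -Real.sin t; 0, Real.sin t, Real.cos t]

theorem so {A : Matrix (Fin 3) (Fin 3) ℝ} : A ∈ SO ↔ A * Aᵀ = 1 ∧ A.det = 1 := by
  rw [mem_specialOrthogonalGroup_iff, mem_orthogonalGroup_iff]

theorem ap_mul (A B : Matrix (Fin 3) (Fin 3) ℝ) (x : E3) :
    toEuclideanLin (A * B) x = toEuclideanLin A (toEuclideanLin B x) := by
  rw [toLpLin_mul_same, LinearMap.comp_apply]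

theorem Hh_ap (w x : E3) : toEuclideanLin (Hh w) x = x - (2 / ‖w‖ ^ 2 * inner ℝ w x) • w := by
  ext i
  simp [Hh, toLpLin_apply, vecMulVec_mulVec, PiLp.inner_apply, dotProduct, mul_comm, mul_assoc]

theorem Hh_o {w : E3} (hw : w ≠ 0) : Hh w * (Hh w)ᵀ = 1 ∧ (Hh w).det = -1 := by
  have h : w 0 ^ 2 + w 1 ^ 2 + w 2 ^ 2 ≠ 0 := by
    simpa only [EuclideanSpace.real_norm_sq_eq, Fin.sum_univ_three] using
      pow_ne_zero 2 (norm_ne_zero_iff.2 hw)
  rw [Hh, EuclideanSpace.real_norm_sq_eq, Fin.sum_univ_three]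
  constructor
  · ext i j
    fin_cases i <;> fin_cases j <;> simp [mul_apply, Fin.sum_univ_three, vecMulVec_apply] <;>
      field_simp <;> ring
  · simp [det_fin_three, vecMulVec_apply]
    field_simp
    ring

theorem two_refl {v u : E3} (hv : ‖v‖ = 1) (hu : ‖u‖ = 1) (h : v + u ≠ 0) :
    Hh (v + u) * Hh v ∈ SO ∧ toEuclideanLin (Hh (v + u) * Hh v) v = u := by
  obtain ⟨a1, a2⟩ := Hh_o h
  obtain ⟨b1, b2⟩ := Hh_o (norm_ne_zero_iff.1 (hv ▸ one_ne_zero))
  refine ⟨so.2 ⟨by rw [transpose_mul, mul_assoc, ← mul_assoc (Hh v), b1, one_mul, a1],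
    by rw [det_mul, a2, b2]; norm_num⟩, ?_⟩
  have n := pow_ne_zero 2 (norm_ne_zero_iff.2 h)
  have : 2 / ‖v + u‖ ^ 2 * inner ℝ (v + u) (-v) = -1 := by
    rw [div_mul_eq_mul_div, div_eq_iff n, norm_add_sq_real, inner_neg_right, inner_add_left,
      real_inner_self_eq_norm_sq, hv, hu, real_inner_comm]
    ring
  rw [ap_mul, Hh_ap v, real_inner_self_eq_norm_sq, hv, show v - (2 / 1 ^ 2 * 1 ^ 2 : ℝ) • v = -v by
    norm_num; module, Hh_ap, this]
  module

theorem rot_so (t : ℝ) : rot t ∈ SO ∧ toEuclideanLin (rot t) e0 = e0 := by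
  refine ⟨so.2 ⟨?_, by simp [rot, det_fin_three, ← sq]⟩, ?_⟩
  · ext i j
    fin_cases i <;> fin_cases j <;> simp [rot, mul_apply, Fin.sum_univ_three, ← sq] <;> ring
  · ext i
    fin_cases i <;> simp [rot, e0, toLpLin_apply]

theorem sur {u : E3} (hu : ‖u‖ = 1) : ∃ A ∈ SO, toEuclideanLin A e0 = u := by
  by_cases h : e0 + u = 0
  · refine ⟨diagonal ![-1, -1, 1], so.2 ⟨?_, by simp [Fin.prod_univ_three]⟩, ?_⟩
    · ext i j
      fin_cases i <;> fin_cases j <;> simp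
    · rw [← neg_eq_of_add_eq_zero_right h]
      ext i
      fin_cases i <;> simp [e0, toLpLin_apply]
  · exact ⟨_, two_refl (by simp [e0]) hu h⟩

theorem fibre {A B : Matrix (Fin 3) (Fin 3) ℝ} (hA : A ∈ SO) (hB : B ∈ SO)
    (h : toEuclideanLin A e0 = toEuclideanLin B e0) : ∃ t, A * rot t = B := by
  obtain ⟨a1, a2⟩ := so.1 hA
  obtain ⟨b1, b2⟩ := so.1 hB
  have a3 := mul_eq_one_comm.1 a1
  have c0 : toEuclideanLin (Aᵀ * B) e0 = e0 := by
    rw [ap_mul, ← h, ← ap_mul, a3, toLpLin_one, LinearMap.id_apply]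
  have c1 : Aᵀ * B * (Aᵀ * B)ᵀ = 1 := by
    rw [transpose_mul, mul_assoc, ← mul_assoc B, b1, one_mul, transpose_transpose, a3]
  have c2 : (Aᵀ * B).det = 1 := by rw [det_mul, det_transpose, a2, b2, one_mul]
  suffices ∃ t, rot t = Aᵀ * B by
    obtain ⟨t, ht⟩ := this
    exact ⟨t, by rw [ht, ← mul_assoc, a1, one_mul]⟩
  generalize Aᵀ * B = C at c0 c1 c2
  have f := fun i => congrArg (fun x : E3 => x i) c0
  have g := fun i j => congrFun (congrFun c1 i) j
  have f0 := f 0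
  have f1 := f 1
  have f2 := f 2
  have g0 := g 0 0
  have g1 := g 1 1
  have g2 := g 2 2
  simp [e0, toLpLin_apply, mul_apply, Fin.sum_univ_three] at f0 f1 f2 g0 g1 g2
  rw [det_fin_three] at c2
  have h1 : C 0 1 = 0 := by nlinarith
  have h2 : C 0 2 = 0 := by nlinarith
  simp only [f0, f1, f2, h1, h2] at c2 g1 g2
  have h3 : C 2 2 = C 1 1 := by nlinarith [sq_nonneg (C 1 1 - C 2 2), sq_nonneg (C 1 2 + C 2 1)]
  have h4 : C 1 2 = -C 2 1 := by nlinarith [sq_nonneg (C 1 1 - C 2 2), sq_nonneg (C 1 2 + C 2 1)]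
  have n : ‖(⟨C 1 1, C 2 1⟩ : ℂ)‖ = 1 := by
    rw [Complex.norm_eq_sqrt_sq_add_sq, Real.sqrt_eq_one]
    dsimp only
    rw [h3] at g2
    linarith
  have p := Complex.norm_mul_cos_arg ⟨C 1 1, C 2 1⟩
  have q := Complex.norm_mul_sin_arg ⟨C 1 1, C 2 1⟩
  rw [n, one_mul] at p q
  refine ⟨Complex.arg ⟨C 1 1, C 2 1⟩, ?_⟩
  ext i j
  fin_cases i <;> fin_cases j <;> simp [rot, *]

/-- positions of the unit segment -/
def Zs (K : Set E3) : Set (Matrix (Fin 3) (Fin 3) ℝ × E3) :=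
  {p | p.1 ∈ SO ∧ p.2 ∈ K ∧ p.2 + toEuclideanLin p.1 e0 ∈ K}

theorem nrm {A : Matrix (Fin 3) (Fin 3) ℝ} (hA : A ∈ SO) (x : E3) : ‖toEuclideanLin A x‖ = ‖x‖ := by
  rw [← sq_eq_sq₀ (norm_nonneg _) (norm_nonneg _), ← real_inner_self_eq_norm_sq,
    ← real_inner_self_eq_norm_sq, ← LinearMap.adjoint_inner_right,
    ← toEuclideanLin_conjTranspose_eq_adjoint, ← ap_mul, conjTranspose_eq_transpose_of_trivial,
    mul_eq_one_comm.1 (so.1 hA).1, toLpLin_one, LinearMap.id_apply]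

theorem lift {K : Set E3} (hK : IsCompact K) (cK : Convex ℝ K)
    (h : ∀ A ∈ SO, ∃ x, (A, x) ∈ Zs K) {p q : Matrix (Fin 3) (Fin 3) ℝ × E3} (hp : p ∈ Zs K)
    (hq : q ∈ Zs K) : JoinedIn (Zs K) p q := by
  have n0 : ‖e0‖ = 1 := by simp [e0]
  have m : ∀ p ∈ Zs K, (p.2, p.2 + toEuclideanLin p.1 e0) ∈ Ys K := fun p hp =>
    ⟨⟨hp.2.1, hp.2.2⟩, by simp [nrm hp.1, n0]⟩
  obtain ⟨g, hg⟩ := joined hK cK (fun u => by
    rcases eq_or_ne u 0 with rfl | hu
    · exact ⟨_, (m p hp).1, by simp⟩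
    obtain ⟨A, hA, e⟩ := sur (norm_smul_inv_norm (𝕜 := ℝ) hu)
    obtain ⟨x, -, h1, h2⟩ := h A hA
    refine ⟨(x, _), ⟨h1, h2⟩, ?_⟩
    have := norm_ne_zero_iff.2 hu
    simp only [add_sub_cancel_left, e, real_inner_smul_right, real_inner_self_eq_norm_sq]
    exact le_of_eq (by simp; field_simp))
    (isConnected_compl_singleton_of_one_lt_rank (by rw [← Module.finrank_eq_rank]; simp) 0).isPreconnected (m p hp) (m q hq)
  have G : ∀ t, g.extend t ∈ Ys K := fun t => by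
    obtain ⟨s, hs⟩ : g.extend t ∈ range g := g.extend_range ▸ mem_range_self t
    exact hs ▸ hg s
  have n : ∀ t, ‖(g.extend t).2 - (g.extend t).1‖ ≠ 0 := fun t => by linarith [(G t).2]
  let v : ℝ → E3 := fun t => ‖(g.extend t).2 - (g.extend t).1‖⁻¹ • ((g.extend t).2 - (g.extend t).1)
  have v1 : ∀ t, ‖v t‖ = 1 := fun t => norm_smul_inv_norm (𝕜 := ℝ) (norm_ne_zero_iff.1 (n t))
  have gc := g.continuous_extend
  have vc : Continuous v := by fun_prop (disch := exact n)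
  have z : ∀ t, ∀ A ∈ SO, toEuclideanLin A e0 = v t → (A, (g.extend t).1) ∈ Zs K := fun t A hA e =>
    ⟨hA, (G t).1.1, e ▸ cK.add_smul_sub_mem (G t).1.1 (G t).1.2
      ⟨by positivity, inv_le_one_of_one_le₀ (G t).2⟩⟩
  have := isPreconnected_univ.induction₂ (fun s t => ∀ A ∈ SO, ∀ B ∈ SO, toEuclideanLin A e0 = v s →
      toEuclideanLin B e0 = v t → JoinedIn (Zs K) (A, (g.extend s).1) (B, (g.extend t).1))
    (fun s _ => ?_) (fun _ t _ _ _ _ a b A hA B hB e f => let ⟨C, hC, c⟩ := sur (v1 t)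
      (a A hA C hC e c).trans (b C hC B hB c f))
    (fun _ _ _ _ a A hA B hB e f => (a B hB A hA f e).symm) (mem_univ 0) (mem_univ 1)
    _ hp.1 _ hq.1 (by simp [v, nrm hp.1, n0]) (by simp [v, nrm hq.1, n0])
  · simpa using this
  obtain ⟨δ, δ0, hδ⟩ := Metric.eventually_nhds_iff_ball.1 (ContinuousAt.eventually_ne
    (g := fun t => v s + v t) (x := s) (y := 0) (by fun_prop) (by
      rw [← two_smul ℝ, ← norm_ne_zero_iff, norm_smul, v1]; simp))
  refine eventually_nhdsWithin_of_eventually_nhds (Eventually.mono (ball_mem_nhds s δ0)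
    fun t ht A hA B hB e f => ?_)
  have l : ∀ x ∈ unitInterval, v s + v (s + x * (t - s)) ≠ 0 := fun x hx => hδ _
    ((convex_ball s δ).add_smul_sub_mem (mem_ball_self δ0) ht hx)
  have k : ∀ x ∈ unitInterval, Hh (v s + v (s + x * (t - s))) * Hh (v s) * A ∈ SO ∧
      toEuclideanLin (Hh (v s + v (s + x * (t - s))) * Hh (v s) * A) e0 = v (s + x * (t - s)) :=
    fun x hx => ⟨mul_mem (two_refl (v1 _) (v1 _) (l x hx)).1 hA,
      by rw [ap_mul, e, (two_refl (v1 _) (v1 _) (l x hx)).2]⟩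
  obtain ⟨θ, hθ⟩ := fibre (k 1 unitInterval.one_mem).1 hB (by rw [(k 1 unitInterval.one_mem).2, f]; simp)
  refine (JoinedIn.ofLine (F := Zs K) (f := fun x => (Hh (v s + v (s + x * (t - s))) * Hh (v s) * A,
    (g.extend (s + x * (t - s))).1)) ?_ ?_ rfl (image_subset_iff.2 fun x hx =>
      z _ _ (k x hx).1 (k x hx).2)).trans (JoinedIn.ofLine (f := fun x =>
        (Hh (v s + v (s + 1 * (t - s))) * Hh (v s) * A * rot (x * θ), (g.extend t).1)) ?_ ?_
        (by rw [one_mul θ, hθ]) (image_subset_iff.2 fun x _ => z _ _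
          (mul_mem (k 1 unitInterval.one_mem).1 (rot_so _).1) ?_))
  · refine ContinuousOn.prodMk (ContinuousOn.mul (ContinuousOn.mul ?_ continuousOn_const)
      continuousOn_const) (by fun_prop)
    refine continuousOn_const.sub (ContinuousOn.smul (continuousOn_const.div (by fun_prop)
      fun x hx => pow_ne_zero 2 (norm_ne_zero_iff.2 (l x hx))) (Continuous.continuousOn ?_))
    exact continuous_matrix fun i j => by simp only [vecMulVec_apply]; fun_prop
  · have e1 : Hh (v s + v s) = Hh (v s) := by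
      rw [Hh, Hh, ← two_smul ℝ, norm_smul, v1]
      ext i j
      simp [vecMulVec_apply]
      ring
    have e2 : (Hh (v s))ᵀ = Hh (v s) := by simp [Hh]
    simp only [zero_mul, add_zero, e1]
    have e3 := (Hh_o (w := v s) (norm_ne_zero_iff.1 (v1 s ▸ one_ne_zero))).1
    rw [e2] at e3
    rw [e3, one_mul]
  · refine (Continuous.prodMk (continuous_const.mul (continuous_matrix fun i j => ?_))
      continuous_const).continuousOn
    fin_cases i <;> fin_cases j <;> simp [rot] <;> fun_prop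
  · rw [zero_mul, show rot 0 = 1 by simp [rot, one_fin_three]]
    simp
  · rw [ap_mul, (rot_so _).2, (k 1 unitInterval.one_mem).2]
    simp

end Pool.Agent.H.MP_8dda54_gt
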